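import Pool.Agent.Helper11.LE.Goals1
import Pool.Agent.Helper9.RP.P1
import Pool.Agent.Helper79.RP.HIL
import Pool.Agent.Helper94.RP.RAT

/-!
# Project LE, packet P1
-/

namespace Pool.Agent.Helper3.LE

open NumberField Polynomial Module IsDedekindDomain TensorProduct Pool.Agent.Helper51.SigLeo
open Pool.Agent.Helper51.RP Pool.Agent.Helper42.RD Pool.Agent.Helper11.LE
open Pool.Agent.Helper13.RS (bc bc_comp bc_sub bc_id extHom_bc el el_inj el_add el_zero el_nsmul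
  el_unitsHom el_sum el_iter iter_add)
open Pool.Agent.Helper9.RP (UU mem_UU mem_UU' fin_UU sum_telescope)

/-- Bezout in a commutative group. -/
theorem bez {G : Type*} [CommGroup G] {g p : ℕ} (hc : g.Coprime p) {x c : G} (h : x ^ g = c ^ p) :
    ∃ d : G, x = d ^ p := by
  have h1 := Nat.gcd_eq_gcd_ab g p
  rw [hc] at h1
  refine ⟨c ^ (g.gcdA p) * x ^ (g.gcdB p), ?_⟩
  have h2 : x ^ (g : ℤ) = c ^ (p : ℤ) := by rw [zpow_natCast, zpow_natCast, h]
  calc x = x ^ ((1 : ℕ) : ℤ) := by simp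
    _ = x ^ ((g : ℤ) * g.gcdA p + (p : ℤ) * g.gcdB p) := by rw [h1]
    _ = (x ^ (g : ℤ)) ^ (g.gcdA p) * (x ^ (g.gcdB p)) ^ (p : ℤ) := by
        rw [zpow_add, zpow_mul, mul_comm (p : ℤ), zpow_mul]
    _ = (c ^ (p : ℤ)) ^ (g.gcdA p) * (x ^ (g.gcdB p)) ^ (p : ℤ) := by rw [h2]
    _ = (c ^ (g.gcdA p)) ^ (p : ℤ) * (x ^ (g.gcdB p)) ^ (p : ℤ) := by
        rw [zpow_comm c]
    _ = _ := by rw [← mul_zpow, zpow_natCast]

theorem bezZ {G : Type*} [CommGroup G] {g : ℤ} {p : ℕ} (hp : p.Prime) (hc : ¬ (p : ℤ) ∣ g)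
    {x c : G} (h : x ^ g = c ^ p) : ∃ d : G, x = d ^ p := by
  have h1 : (g.natAbs).Coprime p := by
    rw [Nat.coprime_comm, hp.coprime_iff_not_dvd]
    rwa [Int.natCast_dvd] at hc
  rcases Int.natAbs_eq g with h2 | h2
  · rw [h2, zpow_natCast] at h
    exact bez h1 h
  · rw [h2, zpow_neg, zpow_natCast, inv_eq_iff_eq_inv, ← inv_pow] at h
    exact bez h1 h

/-- A `p`-th power in an extension of degree prime to `p` is a `p`-th power. -/
theorem pw_down {p : ℕ} {K K₁ : Type} [Field K] [Field K₁] [Algebra K K₁]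
    (hcop : (finrank K K₁).Coprime p) {x : Kˣ} {y : K₁ˣ}
    (h : algebraMap K K₁ (x : K) = (y : K₁) ^ p) : Pw p x := by
  have h1 : x ^ finrank K K₁ = (Units.map (Algebra.norm K : K₁ →* K) y) ^ p := by
    apply Units.ext
    rw [Units.val_pow_eq_pow_val, Units.val_pow_eq_pow_val, Units.coe_map,
      ← map_pow, ← h, Algebra.norm_algebraMap]
  exact bez hcop h1

/-- The Kummer generator does not come from a `p`-th power in the base. -/
theorem no_pow {p : ℕ} (hp : p.Prime) {K₁ H₁ : Type} [Field K₁] [Field H₁] [Algebra K₁ H₁]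
    (γ₁ : H₁ ≃ₐ[K₁] H₁) {ε a : K₁} {s : H₁} (hε : IsPrimitiveRoot ε p) (ha : a ≠ 0)
    (hs : s ^ p = algebraMap K₁ H₁ a) (hγ : γ₁ s = algebraMap K₁ H₁ ε * s) {d : K₁}
    (hd : a = d ^ p) : False := by
  have hne : NeZero p := ⟨hp.ne_zero⟩
  have hd0 : d ≠ 0 := by
    rintro rfl
    rw [zero_pow hp.ne_zero] at hd
    exact ha hd
  have hdH : algebraMap K₁ H₁ d ≠ 0 := (_root_.map_ne_zero _).2 hd0
  have hs0 : s ≠ 0 := by
    rintro rfl
    rw [zero_pow hp.ne_zero] at hs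
    exact ha ((algebraMap K₁ H₁).injective (by rw [← hs, map_zero]))
  have h1 : (s / algebraMap K₁ H₁ d) ^ p = 1 := by
    rw [div_pow, hs, hd, map_pow, div_self (pow_ne_zero _ hdH)]
  have hε' : IsPrimitiveRoot (algebraMap K₁ H₁ ε) p :=
    hε.map_of_injective (algebraMap K₁ H₁).injective
  obtain ⟨i, _, hi⟩ := hε'.eq_pow_of_pow_eq_one h1
  have h2 : s = algebraMap K₁ H₁ (ε ^ i * d) := by
    rw [map_mul, map_pow, hi, div_mul_cancel₀ _ hdH]
  have h3 : γ₁ s = s := by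
    rw [h2, γ₁.commutes]
  rw [h3] at hγ
  have h4 : algebraMap K₁ H₁ ε = 1 := by
    have h5 : algebraMap K₁ H₁ ε * s = 1 * s := by rw [← hγ, one_mul]
    exact mul_right_cancel₀ hs0 h5
  exact hε'.ne_one hp.one_lt h4

/-- If a nontrivial power of `a` comes from `K` up to a `p`-th power then `σ ε = ε`. -/
theorem fix_eps {p : ℕ} (hp : p.Prime) {K K₁ H₁ : Type} [Field K] [Field K₁] [Field H₁]
    [Algebra K K₁] [Algebra K₁ H₁] (γ₁ : H₁ ≃ₐ[K₁] H₁) {ε a : K₁} {s : H₁}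
    (hε : IsPrimitiveRoot ε p) (ha : a ≠ 0) (hs : s ^ p = algebraMap K₁ H₁ a)
    (hγ : γ₁ s = algebraMap K₁ H₁ ε * s) (hom : OmType p K ε a) {j : ℕ} (hj : ¬ p ∣ j)
    {x w : Kˣ} (hx : algebraMap K K₁ (x : K) = ((-1) ^ (p - 1) * a) ^ j *
      algebraMap K K₁ (w : K) ^ p) (σ : K₁ ≃ₐ[K] K₁) : σ ε = ε := by
  rcases hp.eq_two_or_odd' with h2 | h2
  · subst h2
    have h3 : ε = -1 := hε.eq_neg_one_of_two_right
    rw [h3, map_neg, map_one]
  · have he : Even (p - 1) := Nat.Odd.sub_odd h2 odd_one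
    rw [he.neg_one_pow, one_mul] at hx
    obtain ⟨n, c, hn, hc⟩ := hom σ
    have hw0 : algebraMap K K₁ (w : K) ≠ 0 := (_root_.map_ne_zero _).2 w.ne_zero
    have h3 : σ a ^ j = a ^ j := by
      have h4 := congrArg σ hx
      rw [σ.commutes, map_mul, map_pow, map_pow, σ.commutes, hx] at h4
      exact (mul_right_cancel₀ (pow_ne_zero _ hw0) h4).symm
    have hc0 : c ≠ 0 := by
      rintro rfl
      rw [zero_pow hp.ne_zero, mul_zero] at hc
      exact ha ((_root_.map_eq_zero σ).1 hc)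
    rw [hc] at h3
    by_cases hn1 : (p : ℤ) ∣ (n : ℤ) - 1
    · rw [hn]
      have h4 : n ≡ 1 [MOD p] := by
        have h5 : (1 : ℤ) ≡ n [ZMOD p] := (Int.modEq_iff_dvd).2 hn1
        have h6 : ((1 : ℕ) : ℤ) ≡ ((n : ℕ) : ℤ) [ZMOD ((p : ℕ) : ℤ)] := by exact_mod_cast h5
        exact ((Int.natCast_modEq_iff).1 h6).symm
      rw [pow_eq_pow_mod n hε.pow_eq_one, h4, ← pow_eq_pow_mod 1 hε.pow_eq_one, pow_one]
    · exfalso
      set A : K₁ˣ := Units.mk0 a ha with hA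
      set C : K₁ˣ := Units.mk0 c hc0 with hC
      have h4 : (A ^ n * C ^ p) ^ j = A ^ j := by
        apply Units.ext
        simpa [hA, hC] using h3
      have h5 : A ^ (((n : ℤ) - 1) * j) = ((C ^ j)⁻¹) ^ p := by
        have e1 : A ^ (((n : ℤ) - 1) * j) = A ^ (n * j) * (A ^ j)⁻¹ := by
          rw [sub_mul, one_mul, zpow_sub, zpow_natCast, ← Nat.cast_mul, zpow_natCast]
        rw [e1, ← h4, mul_pow, ← pow_mul, ← pow_mul, mul_inv, inv_pow, ← pow_mul,
          mul_inv_cancel_left, mul_comm p j]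
      have h6 : ¬ (p : ℤ) ∣ ((n : ℤ) - 1) * j := by
        intro h7
        rcases (Nat.prime_iff_prime_int.1 hp).dvd_or_dvd h7 with h8 | h8
        · exact hn1 h8
        · exact hj (by exact_mod_cast h8)
      obtain ⟨d, hd⟩ := bezZ hp h6 h5
      have h7 : a = (d : K₁) ^ p := by
        have h8 := congrArg (fun v : K₁ˣ => (v : K₁)) hd
        simpa [hA] using h8
      exact no_pow hp γ₁ hε ha hs hγ h7

/-- `H → H₁` is surjective if `K₁ = K`. -/
theorem surj_of_deg {p : ℕ} (hp : p.Prime) {K H K₁ H₁ : Type} [Field K] [Field H] [Field K₁]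
    [Field H₁] [Algebra K H] [Algebra K K₁] [Algebra K₁ H₁] [Algebra H H₁]
    (hH : finrank K H = p) (hH₁ : finrank K₁ H₁ = p)
    (hcomp : ∀ x : K, algebraMap K₁ H₁ (algebraMap K K₁ x) = algebraMap H H₁ (algebraMap K H x))
    (h1 : finrank K K₁ = 1) :
    Function.Surjective (algebraMap K K₁) ∧ Function.Surjective (algebraMap H H₁) := by
  have key : ∀ (A B : Type) [Field A] [Field B] [Algebra A B], finrank A B = 1 →
      Function.Surjective (algebraMap A B) := by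
    intro A B _ _ _ h
    have h2 := (finrank_eq_one_iff_of_nonzero' (1 : B) one_ne_zero).1 h
    intro b
    obtain ⟨c, hc⟩ := h2 b
    exact ⟨c, by rw [Algebra.algebraMap_eq_smul_one]; exact hc⟩
  refine ⟨key K K₁ h1, key H H₁ ?_⟩
  let _ : Algebra K H₁ := ((algebraMap K₁ H₁).comp (algebraMap K K₁)).toAlgebra
  have t1 : IsScalarTower K K₁ H₁ := IsScalarTower.of_algebraMap_eq fun _ => rfl
  have t2 : IsScalarTower K H H₁ := IsScalarTower.of_algebraMap_eq fun x => hcomp x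
  have e1 := Module.finrank_mul_finrank K K₁ H₁
  have e2 := Module.finrank_mul_finrank K H H₁
  rw [← e1, h1, hH₁, hH, one_mul] at e2
  exact Nat.eq_of_mul_eq_mul_left hp.pos (by rw [e2, mul_one])

theorem prod_pow_fix {p : ℕ} {K H : Type} [Field K] [Field H] [Algebra K H] (γ : H ≃ₐ[K] H)
    {ε₀ : K} {s₀ : H} (hs : γ s₀ = algebraMap K H ε₀ * s₀) (i : ℕ) :
    (γ ^ i) s₀ = algebraMap K H (ε₀ ^ i) * s₀ := by
  induction i with
  | zero => simp
  | succ i ih =>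
    rw [pow_succ', AlgEquiv.mul_apply, ih, map_mul, γ.commutes, hs, ← mul_assoc, ← map_mul,
      pow_succ]

theorem nrm_s {p : ℕ} (hp : p.Prime) {K H : Type} [Field K] [Field H] [Algebra K H]
    (γ : H ≃ₐ[K] H) {ε₀ : K} (hε : IsPrimitiveRoot ε₀ p) {s₀ : H}
    (hs : γ s₀ = algebraMap K H ε₀ * s₀) :
    ∏ i ∈ Finset.range p, (γ ^ i) s₀ = (-1) ^ (p - 1) * s₀ ^ p := by
  have h1 : ∏ i ∈ Finset.range p, (γ ^ i) s₀ =
      algebraMap K H (∏ i ∈ Finset.range p, ε₀ ^ i) * s₀ ^ p := by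
    rw [Finset.prod_congr rfl fun i _ => prod_pow_fix (p := p) γ hs i, Finset.prod_mul_distrib,
      Finset.prod_const, Finset.card_range, map_prod]
  rw [h1, Finset.prod_pow_eq_pow_sum]
  congr 1
  rcases hp.eq_two_or_odd' with h2 | h2
  · subst h2
    have h3 : ε₀ = -1 := hε.eq_neg_one_of_two_right
    rw [h3]
    simp [Finset.sum_range_succ]
  · have he : Even (p - 1) := Nat.Odd.sub_odd h2 odd_one
    obtain ⟨r, hr⟩ := he
    have h4 : ∑ i ∈ Finset.range p, i = p * r := by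
      have h5 := Finset.sum_range_id_mul_two p
      rw [hr, ← two_mul, mul_left_comm] at h5
      omega
    rw [h4, pow_mul, hε.pow_eq_one, one_pow, map_one, hr, ← two_mul, pow_mul]
    simp

/-- Shift of the sequence. -/
theorem shift {A : Type} [AddCommGroup A] (γ : A →+ A) (u : ℕ → A)
    (h1 : ∀ N, ∃ b, u N = u 0 + (γ b - b))
    (h2 : ¬ ∃ (b t : A) (n : ℕ), 0 < n ∧ n • t = 0 ∧ u 0 = (γ b - b) + t) (c : ℕ) :
    (∀ N, ∃ b, u (N + c) + b = u (0 + c) + γ b) ∧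
      ¬ ∃ (b t : A) (n : ℕ), 0 < n ∧ n • t = 0 ∧ u (0 + c) + b = γ b + t := by
  simp only [Nat.zero_add]
  choose b hb using h1
  refine ⟨fun N => ⟨b (N + c) - b c, ?_⟩, ?_⟩
  · have h4 := hb (N + c)
    have h5 := hb c
    rw [h4, h5, map_sub]
    abel
  · rintro ⟨b', t, n, hn, ht, h⟩
    apply h2
    refine ⟨b' - b c, t, n, hn, ht, ?_⟩
    have h5 := hb c
    rw [h5] at h
    rw [map_sub]
    have h6 : u 0 = γ b' + t - b' - (γ (b c) - b c) := by rw [← h]; abel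
    rw [h6]; abel

/-- The two cases at the end of the proof. -/
theorem fin_step {p : ℕ} (hp : p.Prime) {K H K₁ H₁ : Type} [Field K] [NumberField K] [Field H]
    [NumberField H] [Field K₁] [NumberField K₁] [Field H₁] [NumberField H₁] [Algebra K H]
    [Algebra K K₁] [Algebra K₁ H₁] [Algebra H H₁] {γ : H ≃ₐ[K] H} {γ₁ : H₁ ≃ₐ[K₁] H₁} {ε : K₁}
    {a : 𝓞 K₁} {s : H₁} (hd : HD p K H K₁ H₁ γ γ₁ ε a s) (hcyc : Cyc p K K₁ ε)
    (hom : OmType p K ε (a : K₁)) (u : (𝓞 H)ˣ) {y : H} (hy0 : y ≠ 0) (hy : γ y = (u : H) * y)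
    {x : Kˣ} (hx : algebraMap K H (x : K) = ∏ j ∈ Finset.range p, (γ ^ j) y) {j : ℕ} {w : Kˣ}
    (hw : algebraMap K K₁ (x : K) = ((-1) ^ (p - 1) * (a : K₁)) ^ j *
      algebraMap K K₁ (w : K) ^ p) :
    ∃ (t e : (𝓞 H)ˣ), ∏ j ∈ Finset.range p, (γ ^ j) (t : H) = 1 ∧
      ∏ j ∈ Finset.range p, (γ ^ j) (e : H) = 1 ∧ e ^ p = 1 ∧
      (u : H) * t = γ (t : H) * e := by
  have hne : NeZero p := ⟨hp.ne_zero⟩
  have ha0 : (a : K₁) ≠ 0 := RingOfIntegers.coe_ne_zero_iff.2 hd.ne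
  have has0 : (-1) ^ (p - 1) * (a : K₁) ≠ 0 :=
    mul_ne_zero (pow_ne_zero _ (neg_ne_zero.2 one_ne_zero)) ha0
  have hw0 : algebraMap K K₁ (w : K) ≠ 0 := (_root_.map_ne_zero _).2 w.ne_zero
  have hwH : algebraMap K H (w : K) ≠ 0 := (_root_.map_ne_zero _).2 w.ne_zero
  by_cases hj : p ∣ j
  · obtain ⟨i, rfl⟩ := hj
    have h1 : algebraMap K K₁ (x : K) =
        ((Units.mk0 (((-1) ^ (p - 1) * (a : K₁)) ^ i * algebraMap K K₁ (w : K))
          (mul_ne_zero (pow_ne_zero _ has0) hw0) : K₁ˣ) : K₁) ^ p := by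
      rw [Units.val_mk0, mul_pow, ← pow_mul, mul_comm i p, hw]
    have h2 : Pw p x := pw_down hd.cop h1
    obtain ⟨t, ht1, ht2⟩ := Pool.Agent.Helper79.RP.pthpow (M := K) hp (fun z => γ.commutes z) u
      hy0 hy hx h2
    refine ⟨t, 1, ht1, ?_, one_pow _, ?_⟩
    · apply Finset.prod_eq_one
      intro j _
      rw [Units.val_one, map_one, map_one]
    · rw [Units.val_one, map_one, mul_one]
      exact ht2
  · have hσ : ∀ σ : K₁ ≃ₐ[K] K₁, σ = 1 := fun σ => hcyc.gen σ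
      (fix_eps hp γ₁ hd.prim ha0 hd.pow hd.γs hom hj hw σ)
    have hgal := hcyc.gal
    have hfd : FiniteDimensional K K₁ := FiniteDimensional.right ℚ K K₁
    have h1 : finrank K K₁ = 1 := by
      rw [← IsGalois.card_aut_eq_finrank K K₁, Nat.card_eq_one_iff_unique]
      exact ⟨⟨fun σ τ => by rw [hσ σ, hσ τ]⟩, ⟨1⟩⟩
    obtain ⟨hs1, hs2⟩ := surj_of_deg hp hd.degH hd.degH₁ hd.compat h1
    obtain ⟨ε₀, hε₀⟩ := hs1 ε
    obtain ⟨s₀, hs₀⟩ := hs2 s
    have hprim : IsPrimitiveRoot ε₀ p := by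
      apply IsPrimitiveRoot.of_map_of_injective (f := algebraMap K K₁) ?_
        (algebraMap K K₁).injective
      rw [hε₀]; exact hd.prim
    have hγs : γ s₀ = algebraMap K H ε₀ * s₀ := by
      apply (algebraMap H H₁).injective
      rw [← hd.ext, hs₀, hd.γs, map_mul, hs₀, ← hd.compat, hε₀]
    have hs00 : s₀ ≠ 0 := by
      rintro rfl
      have h3 := hd.pow
      rw [← hs₀, map_zero, zero_pow hp.ne_zero] at h3
      exact ha0 ((algebraMap K₁ H₁).injective (by rw [← h3, map_zero]))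
    set t : H := y / (s₀ ^ j * algebraMap K H (w : K)) with ht
    have hden : s₀ ^ j * algebraMap K H (w : K) ≠ 0 := mul_ne_zero (pow_ne_zero _ hs00) hwH
    have ht0 : t ≠ 0 := div_ne_zero hy0 hden
    have hN : ∏ i ∈ Finset.range p, (γ ^ i) (s₀ ^ j * algebraMap K H (w : K)) =
        algebraMap K H (x : K) := by
      have h3 : ∀ i ∈ Finset.range p, (γ ^ i) (s₀ ^ j * algebraMap K H (w : K)) =
          ((γ ^ i) s₀) ^ j * algebraMap K H (w : K) := by
        intro i _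
        rw [map_mul, map_pow, (γ ^ i).commutes]
      rw [Finset.prod_congr rfl h3, Finset.prod_mul_distrib, Finset.prod_pow,
        nrm_s hp γ hprim hγs, Finset.prod_const, Finset.card_range]
      apply (algebraMap H H₁).injective
      rw [map_mul, map_pow, map_mul, map_pow, map_neg, map_one, map_pow, hs₀, hd.pow, map_pow,
        ← hd.compat, ← hd.compat, hw, map_mul, map_pow, map_mul, map_pow, map_neg, map_one,
        map_pow]
    have hNt : ∏ i ∈ Finset.range p, (γ ^ i) t = 1 := by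
      have h3 : ∀ i ∈ Finset.range p, (γ ^ i) t =
          (γ ^ i) y / (γ ^ i) (s₀ ^ j * algebraMap K H (w : K)) := by
        intro i _
        rw [ht, map_div₀]
      rw [Finset.prod_congr rfl h3, Finset.prod_div_distrib, hN, ← hx, div_self]
      exact (_root_.map_ne_zero _).2 x.ne_zero
    -- the root of unity as a unit
    have hint : IsIntegral ℤ (algebraMap K H ε₀) := by
      apply IsIntegral.of_pow hp.pos
      rw [← map_pow, hprim.pow_eq_one, map_one]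
      exact isIntegral_one
    obtain ⟨eI, heI⟩ : ∃ e : 𝓞 H, algebraMap (𝓞 H) H e = algebraMap K H ε₀ :=
      ⟨⟨_, hint⟩, rfl⟩
    have hinj : Function.Injective (algebraMap (𝓞 H) H) :=
      FaithfulSMul.algebraMap_injective (𝓞 H) H
    have hpow : eI ^ p = 1 := by
      apply hinj
      rw [map_pow, heI, map_one, ← map_pow, hprim.pow_eq_one, map_one]
    obtain ⟨E, hEc, hEp⟩ : ∃ E : (𝓞 H)ˣ, algebraMap (𝓞 H) H (E : 𝓞 H) = algebraMap K H ε₀ ∧
        E ^ p = 1 :=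
      ⟨Units.ofPowEqOne eI p hpow hp.ne_zero, heI, Units.pow_ofPowEqOne hpow hp.ne_zero⟩
    have hEj : algebraMap (𝓞 H) H ((E ^ j : (𝓞 H)ˣ) : 𝓞 H) = algebraMap K H (ε₀ ^ j) := by
      rw [Units.val_pow_eq_pow_val, map_pow, hEc, map_pow]
    have hεj : algebraMap K H (ε₀ ^ j) ≠ 0 :=
      (_root_.map_ne_zero _).2 (pow_ne_zero _ (hprim.ne_zero hp.ne_zero))
    -- the new unit
    set u' : (𝓞 H)ˣ := u * (E ^ j)⁻¹ with hu'
    have hu'c : algebraMap (𝓞 H) H (u' : 𝓞 H) * algebraMap K H (ε₀ ^ j) =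
        algebraMap (𝓞 H) H (u : 𝓞 H) := by
      rw [← hEj, hu']
      have h3 : ((u * (E ^ j)⁻¹ : (𝓞 H)ˣ) : 𝓞 H) * ((E ^ j : (𝓞 H)ˣ) : 𝓞 H) = (u : 𝓞 H) := by
        rw [← Units.val_mul, inv_mul_cancel_right]
      have h4 := congrArg (algebraMap (𝓞 H) H) h3
      rw [map_mul] at h4
      exact h4
    have hγt : γ t = (u' : H) * t := by
      have h3 : γ (s₀ ^ j * algebraMap K H (w : K)) =
          algebraMap K H (ε₀ ^ j) * (s₀ ^ j * algebraMap K H (w : K)) := by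
        rw [map_mul, map_pow, hγs, γ.commutes, mul_pow, ← map_pow]
        ring
      rw [ht, map_div₀, h3, hy, ← hu'c]
      field_simp
    obtain ⟨t', ht1, ht2⟩ := Pool.Agent.Helper79.RP.pthpow (M := K) (x := 1) hp
      (fun z => γ.commutes z) u' ht0 hγt (by rw [hNt, Units.val_one, map_one])
      ⟨1, (one_pow p).symm⟩
    refine ⟨t', E ^ j, ht1, ?_, by rw [← pow_mul, mul_comm, pow_mul, hEp, one_pow], ?_⟩
    · have h3 : ∀ i ∈ Finset.range p, (γ ^ i) (algebraMap (𝓞 H) H ((E ^ j : (𝓞 H)ˣ) : 𝓞 H)) =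
          algebraMap K H (ε₀ ^ j) := by
        intro i _
        rw [hEj, (γ ^ i).commutes]
      rw [Finset.prod_congr rfl h3, Finset.prod_const, Finset.card_range, ← map_pow, ← pow_mul,
        mul_comm, pow_mul, hprim.pow_eq_one, one_pow, map_one]
    · rw [← ht2, hEj, ← hu'c]
      ring

theorem l_p1 (h1 : L_LA) (h2 : L_HIL) (h3 : L_MAT) : Pool.Agent.Helper11.LE.L_P1 := by
  intro p _ k _ _ _ _ hι L K H K₁ H₁ _ _ _ _ _ _ _ _ _ _ _ _ γ γ₁ ε a s hH hcyc T hT R al hSt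
    hGood ε' hε' z hzγ hzL
  by_contra hz0
  have hp : p.Prime := Fact.out
  have hchar : CharZero k := charZero_of_injective_algebraMap (algebraMap ℚ_[p] k).injective
  have hγp : γ ^ p = 1 := by rw [← hH.γo]; exact pow_orderOf_eq_one γ
  have hγ1 : γ ≠ 1 := by
    intro h
    have := hH.γo
    rw [h, orderOf_one] at this
    exact hp.one_lt.ne this
  -- the maps
  have hq : ∀ u : Additive (𝓞 H)ˣ,
      (unitsHom γ - AddMonoidHom.id (Additive (𝓞 H)ˣ)) u ∈ UU p γ := by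
    intro u
    rw [AddMonoidHom.sub_apply, AddMonoidHom.id_apply]
    exact sum_telescope hγp u
  have hg : ∀ u : UU p γ, unitsHom γ (u : Additive (𝓞 H)ˣ) ∈ UU p γ := by
    intro u
    have h4 := (UU p γ).add_mem u.2 (sum_telescope hγp (u : Additive (𝓞 H)ˣ))
    rwa [add_sub_cancel] at h4
  let i : UU p γ →+ Additive (𝓞 H)ˣ := (UU p γ).subtype
  let q : Additive (𝓞 H)ˣ →+ UU p γ :=
    (unitsHom γ - AddMonoidHom.id (Additive (𝓞 H)ˣ)).codRestrict (UU p γ) hq
  let γU : UU p γ →+ UU p γ := ((unitsHom γ).comp i).codRestrict (UU p γ) hg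
  have hiq : i.comp q = unitsHom γ - AddMonoidHom.id (Additive (𝓞 H)ˣ) := rfl
  have hγq : γU.comp q = q.comp (unitsHom γ) := by
    apply DFunLike.ext
    intro u
    apply Subtype.ext
    change unitsHom γ (unitsHom γ u - u) = unitsHom γ (unitsHom γ u) - unitsHom γ u
    rw [map_sub]
  have hi2 : bc k i (bc k q z) = (ε' - 1) • z := by
    rw [bc_comp, hiq, bc_sub, bc_id]
    have h4 : bc k (unitsHom γ) z = ε' • z := hzγ
    rw [h4, sub_smul, one_smul]
  have hε1 : ε' - 1 ≠ 0 := sub_ne_zero.2 (hε'.ne_one hp.one_lt)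
  have hz' : bc k q z ≠ 0 := by
    intro h4
    rw [h4, map_zero] at hi2
    rcases smul_eq_zero.1 hi2.symm with h5 | h5
    · exact hε1 h5
    · exact hz0 h5
  have hγz' : extEnd γU (bc k q z) = ε' • bc k q z := by
    have h4 : extEnd γU (bc k q z) = bc k γU (bc k q z) := rfl
    rw [h4, bc_comp, hγq, ← bc_comp]
    have h5 : bc k (unitsHom γ) z = ε' • z := hzγ
    rw [h5, map_smul]
  have hγl : ∀ l : ℕ, (extEnd γU : (k ⊗[ℤ] UU p γ) →ₗ[k] (k ⊗[ℤ] UU p γ))^[l] (bc k q z) =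
      ε' ^ l • bc k q z := by
    intro l
    induction l with
    | zero => rw [Function.iterate_zero, id_eq, pow_zero, one_smul]
    | succ l ih => rw [Function.iterate_succ_apply', ih, map_smul, hγz', smul_smul, pow_succ]
  -- iterates
  have hitγ : ∀ (j : ℕ) (u : UU p γ), ((γU^[j] u : UU p γ) : Additive (𝓞 H)ˣ) =
      (unitsHom γ)^[j] (u : Additive (𝓞 H)ˣ) := by
    intro j
    induction j with
    | zero => intro u; rfl
    | succ j ih =>
      intro u
      rw [Function.iterate_succ_apply', Function.iterate_succ_apply', ← ih]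
      rfl
  have hsumU : ∀ u : UU p γ, ∑ j ∈ Finset.range p, γU^[j] u = 0 := by
    intro u
    apply Subtype.ext
    rw [AddSubgroup.val_finsetSum]
    simp only [hitγ]
    exact mem_UU.1 u.2
  -- rationality
  have hcl : PlaceClosed (above T : Set (H →+* k)) := by
    intro σ τ hστ
    apply hT
    intro x
    exact hστ _
  obtain ⟨n, f, hf0, hfc⟩ := Pool.Agent.Helper94.RP.s_rat p k hι L H _ hcl
  have hf0z := hf0 z hzL
  have hfin := fin_UU p γ
  obtain ⟨u, hu1, hu2, hu4⟩ := h1 p k (UU p γ) γU hsumU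
    (Fin n) (fun j => (f j).comp i) (bc k q z) hz' (by
      intro j l
      rw [hγl, map_smul]
      have h4 := extHom_bc (k := k) i
        (((algebraMap ℚ_[p] k : ℚ_[p] →+* k) : ℚ_[p] →+ k).comp (f j)) (bc k q z)
      rw [hi2, map_smul, hf0z j, smul_zero] at h4
      have h5 : extHom (((algebraMap ℚ_[p] k : ℚ_[p] →+* k) : ℚ_[p] →+ k).comp ((f j).comp i))
          (bc k q z) = 0 := h4.symm
      rw [h5, smul_zero])
  -- the constant
  have hfinE : Finite (H →+* k) := by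
    have : Finite (H →ₐ[ℚ] k) := inferInstance
    exact Finite.of_injective (fun f : H →+* k => f.toRatAlgHom) (fun f g h => by
      ext x; exact DFunLike.congr_fun h x)
  have hp1 : (1 : ℝ) < p := by exact_mod_cast hp.one_lt
  have hp0 : (p : ℝ) ≠ 0 := by positivity
  choose! C hC using hfc
  obtain ⟨c, hc⟩ : ∃ c : ℕ, ∀ τ : H →+* k, ∑ j, ‖C τ j‖ ≤ (p : ℝ) ^ c := by
    have : Fintype (H →+* k) := Fintype.ofFinite _
    obtain ⟨c, hc⟩ := pow_unbounded_of_one_lt (∑ τ : H →+* k, ∑ j, ‖C τ j‖) hp1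
    refine ⟨c, fun τ => le_trans ?_ hc.le⟩
    exact Finset.single_le_sum (f := fun τ : H →+* k => ∑ j, ‖C τ j‖)
      (fun _ _ => Finset.sum_nonneg fun _ _ => norm_nonneg _) (Finset.mem_univ τ)
  obtain ⟨hv1, hv2⟩ := shift γU u hu1 hu2 c
  -- Hilbert 90
  have hN0 := mem_UU'.1 (u (0 + c)).2
  obtain ⟨y, hy0, hy⟩ := Pool.Agent.Helper79.RP.hilbert90 hp.pos γ hH.γo hN0
  obtain ⟨x, hx⟩ := Pool.Agent.Helper79.RP.fix_mem (M := K) hp γ (fun z => γ.commutes z) hH.degH hγ1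
    (Pool.Agent.Helper79.RP.nrm_fix hγp y)
  have hx0 : x ≠ 0 := by
    rintro rfl
    rw [map_zero] at hx
    exact Finset.prod_ne_zero_iff.2 (fun j _ => (_root_.map_ne_zero (γ ^ j)).2 hy0) hx.symm
  obtain ⟨hloc, hsig⟩ := h2 p k hι L K H K₁ H₁ γ γ₁ ε a s hH T
    (fun N => ((u (N + c) : UU p γ) : Additive (𝓞 H)ˣ).toMul)
    (fun N => mem_UU'.1 (u (N + c)).2)
    (by
      intro N
      obtain ⟨b, hb⟩ := hv1 N
      refine ⟨(b : Additive (𝓞 H)ˣ).toMul, mem_UU'.1 b.2, ?_⟩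
      have h5 := congrArg (fun v : UU p γ => el (v : Additive (𝓞 H)ˣ)) hb
      beta_reduce at h5
      rw [AddSubgroup.coe_add, AddSubgroup.coe_add, el_add, el_add] at h5
      exact h5)
    (by
      intro N l τ hτ
      have h4 := hC τ hτ ((unitsHom γ)^[l] ((u (N + c) : UU p γ) : Additive (𝓞 H)ˣ))
      change ‖logUnits L τ ((unitsHom γ)^[l] ((u (N + c) : UU p γ) : Additive (𝓞 H)ˣ))‖ ≤ _
      rw [h4]
      have h6 : ∀ j, ‖f j ((unitsHom γ)^[l] ((u (N + c) : UU p γ) : Additive (𝓞 H)ˣ))‖ ≤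
          (1 / p : ℝ) ^ (N + c) := by
        intro j
        rw [← hitγ]
        exact hu4 (N + c) j l
      calc ‖∑ j, f j ((unitsHom γ)^[l] ((u (N + c) : UU p γ) : Additive (𝓞 H)ˣ)) • C τ j‖
          ≤ ∑ j, ‖f j ((unitsHom γ)^[l] ((u (N + c) : UU p γ) : Additive (𝓞 H)ˣ)) • C τ j‖ :=
            norm_sum_le _ _
        _ ≤ ∑ j, (1 / p : ℝ) ^ (N + c) * ‖C τ j‖ := by
            apply Finset.sum_le_sum
            intro j _
            rw [norm_smul]
            exact mul_le_mul_of_nonneg_right (h6 j) (norm_nonneg _)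
        _ = (1 / p : ℝ) ^ (N + c) * ∑ j, ‖C τ j‖ := by rw [Finset.mul_sum]
        _ ≤ (1 / p : ℝ) ^ (N + c) * (p : ℝ) ^ c := by
            exact mul_le_mul_of_nonneg_left (hc τ) (by positivity)
        _ = (1 / p : ℝ) ^ N := by
            rw [pow_add, mul_assoc, ← mul_pow, one_div_mul_cancel hp0, one_pow, mul_one])
    (Units.mk0 y hy0) (Units.mk0 x hx0) hy hx
  have hSel : Sel1 L T R al (Units.mk0 x hx0) :=
    ⟨h3 p K K₁ ε hcyc R al a hSt x hx0 hloc, hsig⟩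
  obtain ⟨j, w, hw⟩ := hGood _ hSel
  obtain ⟨t, e, ht1, he1, he2, hte⟩ := fin_step hp hH hcyc hSt.om
    (((u (0 + c) : UU p γ) : Additive (𝓞 H)ˣ).toMul) hy0 hy (x := Units.mk0 x hx0) hx hw
  apply hv2
  have ht : Additive.ofMul t ∈ UU p γ := mem_UU'.2 ht1
  have he : Additive.ofMul e ∈ UU p γ := mem_UU'.2 he1
  refine ⟨⟨Additive.ofMul t, ht⟩, ⟨Additive.ofMul e, he⟩, p, hp.pos, ?_, ?_⟩
  · apply Subtype.ext
    rw [AddSubgroup.coe_nsmul, AddSubgroup.coe_zero]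
    change Additive.ofMul (e ^ p) = 0
    rw [he2]
    rfl
  · apply Subtype.ext
    apply el_inj
    rw [AddSubgroup.coe_add, AddSubgroup.coe_add, el_add, el_add]
    exact hte

end Pool.Agent.Helper3.LE
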